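import Mathlib
import Pool.Agent.H60.PAryE

namespace Pool.Agent.Results.MP_7b566e_nt.Counter

open Pool.Agent.H60.PAry

/-- For `p = 11`, `u = 9`, `s = 1` (so `k = 980`) and `n = 132 ≥ u p^s`, `ν_p(A_{p,k}(n)) = 3`. -/
theorem result : ∃ p u s n : ℕ, p.Prime ∧ 3 ≤ p ∧ 2 ≤ u ∧ u ≤ p - 1 ∧ 1 ≤ s ∧ u * p ^ s ≤ n ∧
    padicValNat p (S p 0 ((p - 1) * (u * p ^ s - 1)) n) = 3 := by
  refine ⟨11, 9, 1, 132, by norm_num, by norm_num, by norm_num, by norm_num, le_rfl, by norm_num,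
    ?_⟩
  haveI : Fact (Nat.Prime 11) := ⟨by norm_num⟩
  rw [show (11 - 1) * (9 * 11 ^ 1 - 1) = 979 + 1 from rfl,
    S_eq_Arec 11 979 (by norm_num) 3 132 (by norm_num)]
  have h1 : Arec 11 979 3 132 % 11 ^ 3 = 0 := by decide +kernel
  have h2 : Arec 11 979 3 132 % 11 ^ 4 ≠ 0 := by decide +kernel
  have h0 : Arec 11 979 3 132 ≠ 0 := fun h => h2 (by rw [h, Nat.zero_mod])
  have h3 : 3 ≤ padicValNat 11 (Arec 11 979 3 132) :=
    (padicValNat_dvd_iff_le h0).1 (Nat.dvd_of_mod_eq_zero h1)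
  have h4 : ¬ 4 ≤ padicValNat 11 (Arec 11 979 3 132) := fun h =>
    h2 (Nat.mod_eq_zero_of_dvd ((padicValNat_dvd_iff_le h0).2 h))
  omega

end Pool.Agent.Results.MP_7b566e_nt.Counter
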